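import Pool.Agent.X171.SP.Sep
import Pool.Agent.X171.SP.SupSum

/-!
# MP_1502ad_an, Q1: extensions of semiprojective Banach lattices need not be semiprojective

Let `A` be the `ℓ_∞`-sum of `ℝ` and `ℓ₁` and let `J = ℝ × {0}`. Then `J = ℝ` and `A / J = ℓ₁` are
`1⁺`-projective, hence semiprojective, and `A` is separable and not `1⁺`-projective. Since
separable semiprojective Banach lattices are `1⁺`-projective, `A` is not semiprojective.
-/

namespace Pool.Agent.Results.MP_1502ad_an.ExtensionNotSemiprojective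

open Pool.Agent.X171.BL (BanachLattice IsLatticeHom norm_le_of_abs_le)
open Pool.Agent.X171.SP
open Pool.Agent.X171.SP.SupSum (L1 IsProjective IsBanachLattice co)

universe u v w

/-- a closed ideal is a closed sublattice -/
def idealSub {B : Type v} [NormedAddCommGroup B] [Lattice B] [NormedSpace ℝ B] [BanachLattice B]
    (J : ClosedIdeal B) : ClosedSublattice B where
  toSubmodule := J.toSubmodule
  sup_mem' := fun x y hx hy => by
    have h1 : |x| + |y| ∈ J.toSubmodule :=
      J.toSubmodule.add_mem (J.solid' _ _ hx (by rw [abs_abs])) (J.solid' _ _ hy (by rw [abs_abs]))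
    refine J.solid' _ _ h1 ?_
    rw [abs_of_nonneg (add_nonneg (abs_nonneg x) (abs_nonneg y)), abs_le']
    refine ⟨sup_le ?_ ?_, ?_⟩
    · exact (le_abs_self x).trans (le_add_of_nonneg_right (abs_nonneg y))
    · exact (le_abs_self y).trans (le_add_of_nonneg_left (abs_nonneg x))
    · rw [neg_sup]
      exact inf_le_left.trans ((neg_le_abs x).trans (le_add_of_nonneg_right (abs_nonneg y)))
  closed' := J.closed'

lemma isBL (X : Type v) [NormedAddCommGroup X] [Lattice X] [NormedSpace ℝ X] [BanachLattice X] :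
    IsBanachLattice X :=
  { (inferInstance : IsOrderedAddMonoid X), (inferInstance : HasSolidNorm X),
    (inferInstance : CompleteSpace X) with
    smul_nonneg' := fun _ _ hr hx => smul_nonneg hr hx }

lemma bL (X : Type v) [NormedAddCommGroup X] [NormedSpace ℝ X] [Lattice X] [IsBanachLattice X] :
    BanachLattice X where
  ordered := inferInstance
  smul := ⟨fun _ hr _ _ h => SupSum.smul_le hr h⟩
  solid := inferInstance
  complete := inferInstance

instance : BanachLattice ℝ where
  ordered := inferInstance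
  smul := inferInstance
  solid := inferInstance
  complete := inferInstance

instance : BanachLattice L1 := bL L1

instance : BanachLattice (ℝ × L1) where
  ordered := inferInstance
  smul := ⟨fun _ hr _ _ h => ⟨mul_le_mul_of_nonneg_left h.1 hr, SupSum.smul_le hr h.2⟩⟩
  solid := inferInstance
  complete := inferInstance

lemma hom_of_sup {X : Type u} {Y : Type v} [NormedAddCommGroup X] [Lattice X] [NormedSpace ℝ X]
    [BanachLattice X] [NormedAddCommGroup Y] [Lattice Y] [NormedSpace ℝ Y] [BanachLattice Y]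
    {T : X →L[ℝ] Y} (h : ∀ x y, T (x ⊔ y) = T x ⊔ T y) : IsLatticeHom T := by
  refine ⟨h, fun x y => ?_⟩
  have h1 : x ⊓ y = -(-x ⊔ -y) := by rw [neg_sup, neg_neg, neg_neg]
  rw [h1, map_neg, h, map_neg, map_neg, neg_sup, neg_neg, neg_neg]

/-- transfer between the two formulations of projectivity -/
lemma onePlus_of_proj {P : Type} [NormedAddCommGroup P] [Lattice P] [NormedSpace ℝ P]
    [BanachLattice P] (h : IsProjective.{0, v} P) : OnePlusProjective.{0, v} P := by
  intro X _ _ _ _ J T hT ε hε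
  have := isBL X
  obtain ⟨S, h1, h2, h3⟩ := h X J.toSubmodule J.closed'
    (fun x y hxy hy => J.solid' y x hy hxy) T (fun p q x y hx hy => by
      have hx' : J.proj x = T p := hx
      have hy' : J.proj y = T q := hy
      have h4 : T (p ⊔ q) = J.proj (x ⊔ y) := by
        rw [hT.sup, ← hx', ← hy', J.mk_sup']
      exact h4) ε hε
  exact ⟨S, hom_of_sup h1, h2, h3⟩

lemma proj_of_onePlus {P : Type} [NormedAddCommGroup P] [Lattice P] [NormedSpace ℝ P]
    [BanachLattice P] (h : OnePlusProjective.{0, v} P) : IsProjective.{0, v} P := by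
  intro X _ _ _ _ J hJ hJ' T hT ε hε
  have := bL X
  let J₀ : ClosedIdeal X := ⟨J, fun x y hx hxy => hJ' y x hxy hx, hJ⟩
  let T' : P →L[ℝ] J₀.Quo := T
  obtain ⟨S, h1, h2, h3⟩ := h X J₀ T' (hom_of_sup (fun p q => by
    obtain ⟨x, hx⟩ := J₀.mk_surj (T' p)
    obtain ⟨y, hy⟩ := J₀.mk_surj (T' q)
    have h4 : T' (p ⊔ q) = J₀.proj (x ⊔ y) := hT p q x y hx hy
    rw [h4, J₀.mk_sup', hx, hy])) ε hε
  exact ⟨S, h1.sup, h2, h3⟩

/-- contractive retracts of `1⁺`-projective lattices -/
lemma retract {P : Type u} {A : Type w} [NormedAddCommGroup P] [Lattice P] [NormedSpace ℝ P]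
    [NormedAddCommGroup A] [Lattice A] [NormedSpace ℝ A] (hP : OnePlusProjective.{u, v} P)
    {i : A →L[ℝ] P} {r : P →L[ℝ] A} (hi : IsLatticeHom i) (hr : IsLatticeHom r) (hi1 : ‖i‖ ≤ 1)
    (hr1 : ‖r‖ ≤ 1) (h : ∀ a, r (i a) = a) : OnePlusProjective.{w, v} A := by
  intro X _ _ _ _ J T hT ε hε
  obtain ⟨S, h1, h2, h3⟩ := hP X J (T.comp r) (hT.comp hr) ε hε
  refine ⟨S.comp i, h1.comp hi, fun a => ?_, ?_⟩
  · have := h2 (i a)
    rw [ContinuousLinearMap.comp_apply, h] at this
    exact this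
  · calc ‖S.comp i‖ ≤ ‖S‖ * ‖i‖ := ContinuousLinearMap.opNorm_comp_le _ _
      _ ≤ ((1 + ε) * ‖T.comp r‖) * 1 := by gcongr
      _ ≤ ((1 + ε) * (‖T‖ * ‖r‖)) * 1 := by
        gcongr
        exact ContinuousLinearMap.opNorm_comp_le _ _
      _ ≤ ((1 + ε) * (‖T‖ * 1)) * 1 := by gcongr
      _ = (1 + ε) * ‖T‖ := by ring

lemma semi_of_onePlus {A : Type u} [NormedAddCommGroup A] [Lattice A] [NormedSpace ℝ A]
    (h : OnePlusProjective.{u, v} A) : Semiprojective.{u, v} A := by
  intro B _ _ _ _ _ I J hI hJ φ hφ hφ1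
  refine ⟨0, fun ε hε => ?_⟩
  obtain ⟨ψ, hψ, hψ1, hψ2⟩ := h B J φ hφ ε hε
  refine ⟨(I 0).proj.comp ψ, (I 0).mk_hom.comp hψ, ?_, fun a b hb => ?_⟩
  · refine (ContinuousLinearMap.opNorm_comp_le _ _).trans ?_
    have h2 : ‖(I 0).proj‖ ≤ 1 := ContinuousLinearMap.opNorm_le_bound _ zero_le_one fun x => by
      rw [one_mul]
      exact (I 0).norm_mk_le x
    calc ‖(I 0).proj‖ * ‖ψ‖ ≤ 1 * ((1 + ε) * ‖φ‖) := by gcongr
      _ = (1 + ε) * ‖φ‖ := one_mul _
      _ ≤ (1 + ε) * 1 := by gcongr
      _ = 1 + ε := mul_one _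
  · rw [← hψ1, J.mk_eq_iff]
    have h3 : b - ψ a ∈ I 0 := (I 0).mk_eq_iff.1 hb
    have h4 : b - ψ a ∈ (J : Set B) := by
      rw [hJ]
      exact subset_closure (Set.mem_iUnion.2 ⟨0, h3⟩)
    exact h4

/-- the ideal `ℝ × {0}` of `ℝ × ℓ₁` -/
def J₁ : ClosedIdeal (ℝ × L1) where
  carrier := {p | p.2 = 0}
  zero_mem' := rfl
  add_mem' := fun {p q} hp hq => by
    change p.2 + q.2 = 0
    rw [show p.2 = 0 from hp, show q.2 = 0 from hq, add_zero]
  smul_mem' := fun r p hp => by
    change r • p.2 = 0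
    rw [show p.2 = 0 from hp, smul_zero]
  solid' := fun p q hp hpq => by
    have h1 : |q.2| ≤ |p.2| := hpq.2
    rw [show p.2 = 0 from hp] at h1
    have h2 := norm_le_of_abs_le h1
    rw [norm_zero] at h2
    exact norm_le_zero_iff.1 h2
  closed' := isClosed_eq continuous_snd continuous_const

lemma mem_J₁ {p : ℝ × L1} : p ∈ J₁ ↔ p.2 = 0 := Iff.rfl

lemma ideal_proj : OnePlusProjective.{0, v} (idealSub J₁).Ty := by
  have hmem : ∀ a : ℝ, ((a, 0) : ℝ × L1) ∈ (idealSub J₁).toSubmodule := fun a => rfl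
  refine retract (onePlus_of_proj SupSum.proj_real)
    (i := (ContinuousLinearMap.fst ℝ ℝ L1).comp (idealSub J₁).incl)
    (r := LinearMap.mkContinuous
      { toFun := fun a => (⟨(a, 0), hmem a⟩ : (idealSub J₁).Ty)
        map_add' := fun a b => by
          apply (idealSub J₁).incl_inj
          change ((a + b, 0) : ℝ × L1) = (a, 0) + (b, 0)
          rw [Prod.mk_add_mk, add_zero]
        map_smul' := fun r a => by
          apply (idealSub J₁).incl_inj
          change ((r * a, 0) : ℝ × L1) = r • (a, 0)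
          rw [Prod.smul_mk, smul_zero]
          rfl } 1 fun a => by
            rw [one_mul]
            change ‖((a, 0) : ℝ × L1)‖ ≤ ‖a‖
            rw [Prod.norm_def, norm_zero]
            exact max_le le_rfl (norm_nonneg a))
    (hom_of_sup fun _ _ => rfl) (hom_of_sup fun a b => ?_) ?_
    (LinearMap.mkContinuous_norm_le _ zero_le_one _) fun p => ?_
  · apply (idealSub J₁).incl_inj
    change ((a ⊔ b, 0) : ℝ × L1) = (a, 0) ⊔ (b, 0)
    rw [Prod.mk_sup_mk, sup_idem]
  · refine ContinuousLinearMap.opNorm_le_bound _ zero_le_one fun p => ?_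
    rw [one_mul]
    change ‖((idealSub J₁).incl p).1‖ ≤ ‖(idealSub J₁).incl p‖
    exact norm_fst_le _
  · apply (idealSub J₁).incl_inj
    change ((((idealSub J₁).incl p).1, 0) : ℝ × L1) = (idealSub J₁).incl p
    have h1 : ((idealSub J₁).incl p).2 = 0 := p.2
    exact Prod.ext rfl h1.symm

lemma quo_proj : OnePlusProjective.{0, v} J₁.Quo := by
  have hsnd : IsLatticeHom (ContinuousLinearMap.snd ℝ ℝ L1) := hom_of_sup fun _ _ => rfl
  obtain ⟨i, hi, hi1, hi2⟩ := exists_desc J₁.isQuotientMap_mk hsnd (fun p hp => by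
    rw [J₁.mk_eq_zero] at hp
    exact hp)
  have hinr : IsLatticeHom (ContinuousLinearMap.inr ℝ ℝ L1) := hom_of_sup fun a b => by
    change ((0, a ⊔ b) : ℝ × L1) = (0, a) ⊔ (0, b)
    rw [Prod.mk_sup_mk, sup_idem]
  refine retract (onePlus_of_proj SupSum.proj_L1) hi (r := J₁.proj.comp
    (ContinuousLinearMap.inr ℝ ℝ L1)) (J₁.mk_hom.comp hinr) ?_ ?_ fun q => ?_
  · refine hi2.trans (ContinuousLinearMap.opNorm_le_bound _ zero_le_one fun p => ?_)
    rw [one_mul]
    exact norm_snd_le p
  · refine ContinuousLinearMap.opNorm_le_bound _ zero_le_one fun b => ?_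
    rw [one_mul]
    refine (J₁.norm_mk_le _).trans ?_
    change ‖((0, b) : ℝ × L1)‖ ≤ ‖b‖
    rw [Prod.norm_def, norm_zero]
    exact max_le (norm_nonneg b) le_rfl
  · obtain ⟨p, rfl⟩ := J₁.mk_surj q
    rw [hi1]
    change J₁.proj (0, p.2) = J₁.proj p
    rw [J₁.mk_eq_iff, mem_J₁]
    exact sub_self p.2

instance : TopologicalSpace.SeparableSpace L1 := by
  have h1 : Dense (Submodule.span ℝ (Set.range SupSum.e) : Set L1) := by
    intro f
    refine mem_closure_of_tendsto (SupSum.hasSum_e f).tendsto_sum_nat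
      (Filter.Eventually.of_forall fun N => ?_)
    exact Submodule.sum_mem _ fun n _ => Submodule.smul_mem _ _ (Submodule.subset_span ⟨n, rfl⟩)
  have h2 : TopologicalSpace.IsSeparable (Set.range SupSum.e) :=
    (Set.countable_range _).isSeparable
  have h3 := h2.span (R := ℝ)
  have h4 := h3.closure
  rw [h1.closure_eq] at h4
  exact TopologicalSpace.isSeparable_univ_iff.1 h4

/-- **Theorem.** There is a Banach lattice `A` (the `ℓ_∞`-sum of `ℝ` and `ℓ₁`) with a closed ideal
`J` such that `J` and `A / J` are semiprojective and `A` is not semiprojective. -/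
theorem result : ∃ (A : Type) (_ : NormedAddCommGroup A) (_ : Lattice A) (_ : NormedSpace ℝ A)
    (_ : BanachLattice A) (J : ClosedIdeal A),
    Semiprojective.{0, v} (idealSub J).Ty ∧ Semiprojective.{0, v} J.Quo ∧
      ¬ Semiprojective.{0, 0} A :=
  ⟨ℝ × L1, inferInstance, inferInstance, inferInstance, inferInstance, J₁,
    semi_of_onePlus ideal_proj, semi_of_onePlus quo_proj, fun h =>
      SupSum.not_proj (proj_of_onePlus (onePlusProjective_of_semiprojective h))⟩

end Pool.Agent.Results.MP_1502ad_an.ExtensionNotSemiprojective
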